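import Pool.Agent.Y990.PL.Stm3
import Pool.Agent.Y990.PL.Dyad

set_option autoImplicit false

/-!
A Gronwall estimate for power laws: `S_gron`.
-/

namespace Pool.Agent.Y840.PL

open Finset Filter Topology Pool.Agent.Y990.PL

lemma eventually_pos_right {f : ℝ → ℝ} {f' x : ℝ} (hf : HasDerivAt f f' x) (h : 0 < f') :
    ∀ᶠ u in 𝓝[>] x, f x < f u := by
  have h1 := hasDerivAt_iff_tendsto_slope.1 hf
  have h2 : ∀ᶠ u in 𝓝[≠] x, 0 < slope f x u := h1.eventually (lt_mem_nhds h)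
  have h3 : ∀ᶠ u in 𝓝[>] x, 0 < slope f x u :=
    h2.filter_mono (nhdsWithin_mono x fun u hu => ne_of_gt hu)
  filter_upwards [h3, self_mem_nhdsWithin] with u hu hxu
  rw [Set.mem_Ioi] at hxu
  have h4 : 0 < u - x := sub_pos.2 hxu
  rw [slope_def_field] at hu
  have := (div_pos_iff_of_pos_right h4).1 hu
  linarith

theorem gron : S_gron := by
  intro κ K hκ0 hκ hK
  refine ⟨1 / (6 * K), by positivity, ?_⟩
  intro N g C0 a b hN hC0 hab hba hg hD ha
  have hN0 : (0 : ℝ) < N := by exact_mod_cast hN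
  have hsN : 0 < √(N : ℝ) := Real.sqrt_pos.2 hN0
  have hrN : (N : ℝ) ^ (-(1 / 2 : ℝ)) = 1 / √(N : ℝ) := by
    rw [Real.rpow_neg hN0.le, ← Real.sqrt_eq_rpow, one_div]
  have hlen : ∀ u ∈ Set.Icc a b, 3 * K * √(N : ℝ) * (u - a) ≤ 1 / 2 := by
    intro u hu
    have h1 : u - a ≤ 1 / (6 * K) * (1 / √(N : ℝ)) := by
      rw [← hrN]
      linarith [hu.2]
    have h2 : 3 * K * √(N : ℝ) * (u - a) ≤ 3 * K * √(N : ℝ) * (1 / (6 * K) * (1 / √(N : ℝ))) :=
      mul_le_mul_of_nonneg_left h1 (by positivity)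
    have h3 : 3 * K * √(N : ℝ) * (1 / (6 * K) * (1 / √(N : ℝ))) = 1 / 2 := by
      field_simp
      norm_num
    linarith
  set B : ℕ → ℝ → ℝ := fun t u => C0 * (t : ℝ) ^ (-κ) * (1 + 3 * K * √(N : ℝ) * (u - a)) with hB
  have hτ : ∀ t : ℕ, 1 ≤ t → 0 < (t : ℝ) ^ (-κ) := fun t ht =>
    Real.rpow_pos_of_pos (by exact_mod_cast ht) _
  set s : Set ℝ := {u | ∀ t ∈ Finset.Icc 1 N, g t u ≤ B t u} with hs
  have hclosed : IsClosed (s ∩ Set.Icc a b) := by
    have : s ∩ Set.Icc a b = Set.Icc a b ∩ ⋂ t ∈ Finset.Icc 1 N,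
        {u ∈ Set.Icc a b | g t u ≤ B t u} := by
      ext u
      simp only [hs, Set.mem_inter_iff, Set.mem_ofPred_eq, Set.mem_iInter, Finset.mem_Icc]
      constructor
      · rintro ⟨h1, h2⟩
        exact ⟨h2, fun t ht => ⟨h2, h1 t ht⟩⟩
      · rintro ⟨h1, h2⟩
        exact ⟨fun t ht => (h2 t ht).2, h1⟩
    rw [this]
    apply isClosed_Icc.inter
    apply isClosed_biInter
    intro t ht
    rw [Finset.mem_coe, Finset.mem_Icc] at ht
    apply isClosed_Icc.isClosed_le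
    · intro u hu
      obtain ⟨D, hD1, _⟩ := hD t ht.1 ht.2 u hu
      exact hD1.continuousAt.continuousWithinAt
    · apply Continuous.continuousOn
      simp only [hB]
      fun_prop
  have has : a ∈ s := by
    intro t ht
    rw [Finset.mem_Icc] at ht
    simp only [hB, sub_self, mul_zero, add_zero, mul_one]
    exact ha t ht.1 ht.2
  have hstep : ∀ x ∈ s ∩ Set.Ico a b, s ∈ 𝓝[>] x := by
    rintro x ⟨hxs, hx⟩
    have hx' : x ∈ Set.Icc a b := Set.Ico_subset_Icc_self hx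
    have hx15 : ∀ t ∈ Finset.Icc 1 N, g t x ≤ 3 / 2 * C0 * (t : ℝ) ^ (-κ) := by
      intro t ht
      have h1 := hxs t ht
      rw [Finset.mem_Icc] at ht
      have h2 : B t x ≤ C0 * (t : ℝ) ^ (-κ) * (3 / 2) := by
        simp only [hB]
        apply mul_le_mul_of_nonneg_left _ (mul_pos hC0 (hτ t ht.1)).le
        linarith [hlen x hx']
      linarith
    have key : ∀ t ∈ Finset.Icc 1 N, ∀ᶠ u in 𝓝[>] x, g t u ≤ B t u := by
      intro t ht
      have hxt := hxs t ht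
      have h15 := hx15 t ht
      have ht0 := ht
      rw [Finset.mem_Icc] at ht
      have htpos : (0 : ℝ) < t := by exact_mod_cast ht.1
      have hτt := hτ t ht.1
      obtain ⟨D, hD1, hD2⟩ := hD t ht.1 ht.2 x hx'
      have hsum : ∑ t' ∈ Finset.Icc 1 t, g t' x ≤ 3 * C0 * (t * (t : ℝ) ^ (-κ)) := by
        have h1 : ∑ t' ∈ Finset.Icc 1 t, g t' x ≤
            ∑ t' ∈ Finset.Icc 1 t, 3 / 2 * C0 * (t' : ℝ) ^ (-κ) := by
          apply Finset.sum_le_sum
          intro t' ht'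
          apply hx15
          rw [Finset.mem_Icc] at ht' ⊢
          exact ⟨ht'.1, ht'.2.trans ht.2⟩
        have h2 := sum_rpow_le κ hκ0.le hκ.le t
        have h3 : (t : ℝ) ^ (1 - κ) = t * (t : ℝ) ^ (-κ) := by
          rw [sub_eq_add_neg, Real.rpow_add htpos, Real.rpow_one]
        rw [← Finset.mul_sum] at h1
        rw [h3] at h2
        have h4 := mul_le_mul_of_nonneg_left h2 (by positivity : 0 ≤ 3 / 2 * C0)
        linarith
      have hDlt : D < C0 * (t : ℝ) ^ (-κ) * (3 * K * √(N : ℝ)) := by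
        refine lt_of_le_of_lt hD2 ?_
        have h1 : √(g t x) * √(∑ t' ∈ Finset.Icc 1 t, g t' x) ≤
            √(3 / 2 * C0 * (t : ℝ) ^ (-κ)) * √(3 * C0 * (t * (t : ℝ) ^ (-κ))) :=
          mul_le_mul (Real.sqrt_le_sqrt h15) (Real.sqrt_le_sqrt hsum) (Real.sqrt_nonneg _)
            (Real.sqrt_nonneg _)
        have h2 : √(3 / 2 * C0 * (t : ℝ) ^ (-κ)) * √(3 * C0 * (t * (t : ℝ) ^ (-κ))) <
            C0 * (t : ℝ) ^ (-κ) * (3 * √(N : ℝ)) := by
          rw [← Real.sqrt_mul (by positivity)]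
          rw [Real.sqrt_lt' (by positivity)]
          have h3 : (C0 * (t : ℝ) ^ (-κ) * (3 * √(N : ℝ))) ^ 2 =
              (C0 * (t : ℝ) ^ (-κ)) ^ 2 * (9 * N) := by
            rw [mul_pow, mul_pow 3, Real.sq_sqrt hN0.le]
            norm_num
          rw [h3]
          have h4 : 3 / 2 * C0 * (t : ℝ) ^ (-κ) * (3 * C0 * (t * (t : ℝ) ^ (-κ))) =
              (C0 * (t : ℝ) ^ (-κ)) ^ 2 * (9 / 2 * t) := by ring
          rw [h4]
          apply mul_lt_mul_of_pos_left _ (by positivity)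
          have h5 : (t : ℝ) ≤ N := by exact_mod_cast ht.2
          linarith
        calc K * √(g t x) * √(∑ t' ∈ Finset.Icc 1 t, g t' x)
            = K * (√(g t x) * √(∑ t' ∈ Finset.Icc 1 t, g t' x)) := by ring
          _ < K * (C0 * (t : ℝ) ^ (-κ) * (3 * √(N : ℝ))) :=
              mul_lt_mul_of_pos_left (lt_of_le_of_lt h1 h2) hK
          _ = C0 * (t : ℝ) ^ (-κ) * (3 * K * √(N : ℝ)) := by ring
      have hBder : HasDerivAt (B t) (C0 * (t : ℝ) ^ (-κ) * (3 * K * √(N : ℝ))) x := by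
        have h1 : HasDerivAt (fun u : ℝ => 1 + 3 * K * √(N : ℝ) * (u - a))
            (3 * K * √(N : ℝ) * 1) x :=
          (((hasDerivAt_id x).sub_const a).const_mul (3 * K * √(N : ℝ))).const_add 1
        have h2 := h1.const_mul (C0 * (t : ℝ) ^ (-κ))
        rw [mul_one] at h2
        exact h2
      have hsub := hBder.sub hD1
      have hev := eventually_pos_right hsub (sub_pos.2 hDlt)
      filter_upwards [hev] with u hu
      simp only [Pi.sub_apply] at hu
      linarith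
    have h1 : ∀ᶠ u in 𝓝[>] x, ∀ t ∈ Finset.Icc 1 N, g t u ≤ B t u :=
      (Filter.eventually_all_finset _).2 key
    exact h1
  have hall := hclosed.Icc_subset_of_forall_mem_nhdsWithin has hstep
  intro t ht1 ht2
  have hb := hall (Set.right_mem_Icc.2 hab) t (Finset.mem_Icc.2 ⟨ht1, ht2⟩)
  have h2 : B t b ≤ C0 * (t : ℝ) ^ (-κ) * (3 / 2) := by
    simp only [hB]
    apply mul_le_mul_of_nonneg_left _ (mul_pos hC0 (hτ t ht1)).le
    linarith [hlen b (Set.right_mem_Icc.2 hab)]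
  have h3 := mul_pos hC0 (hτ t ht1)
  linarith

end Pool.Agent.Y840.PL
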