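import Pool.Agent.Y990.PL.Stm3

set_option autoImplicit false

/-!
Cauchy-Schwarz along an exploration: `S_secA` and `S_secB`.
-/

namespace Pool.Agent.Y840.PL

open Finset H974 Pool.Agent.Y990.PL

variable {E W : Type}

lemma sz_mono (T : ℕ) {X Y : Set W} (h : X ⊆ Y) : sz T X ≤ sz T Y := by
  unfold sz
  apply ENat.toNat_le_toNat
  · exact min_le_min_right _ (Set.encard_le_encard h)
  · exact ne_top_of_le_ne_top (ENat.natCast_ne_top T) (min_le_right _ _)

lemma sz_succ {T : ℕ} {X Y : Set W} (hX : X.encard < (T : ℕ∞)) (h : X.encard + 1 ≤ Y.encard) :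
    (sz T X : ℝ) + 1 ≤ sz T Y := by
  have hfin : X.Finite := Set.finite_of_encard_le_coe hX.le
  have hn : X.encard = (X.ncard : ℕ∞) := hfin.cast_ncard_eq.symm
  have h1 : sz T X + 1 ≤ sz T Y := by
    rw [sz_lt hX]
    unfold sz
    have hne : min Y.encard (T : ℕ∞) ≠ ⊤ :=
      ne_top_of_le_ne_top (ENat.natCast_ne_top T) (min_le_right _ _)
    have h2 : ((X.ncard + 1 : ℕ) : ℕ∞) ≤ min Y.encard (T : ℕ∞) := by
      rw [Nat.cast_add, Nat.cast_one, ← hn]
      refine le_min h ?_
      exact Order.add_one_le_of_lt hX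
    exact (ENat.toNat_le_toNat h2 hne)
  exact_mod_cast h1

lemma cs_two {q a1 a0 b1 b0 X1 X0 B : ℝ} (q0 : 0 ≤ q) (q1 : q ≤ 1) (ha1 : 0 ≤ a1) (ha0 : 0 ≤ a0)
    (hb1 : 0 ≤ b1) (hb0 : 0 ≤ b0) (h1 : X1 ≤ √a1 * √b1) (h0 : X0 ≤ √a0 * √b0)
    (hB : q * b1 + (1 - q) * b0 ≤ B) :
    q * X1 + (1 - q) * X0 ≤ √(q * a1 + (1 - q) * a0) * √B := by
  have q1' : 0 ≤ 1 - q := by linarith
  have hA : 0 ≤ q * a1 + (1 - q) * a0 := by positivity
  have hB0 : 0 ≤ q * b1 + (1 - q) * b0 := by positivity
  have e1 := Real.sq_sqrt ha1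
  have e2 := Real.sq_sqrt ha0
  have e3 := Real.sq_sqrt hb1
  have e4 := Real.sq_sqrt hb0
  have n1 := Real.sqrt_nonneg a1
  have n2 := Real.sqrt_nonneg a0
  have n3 := Real.sqrt_nonneg b1
  have n4 := Real.sqrt_nonneg b0
  set r1 := √a1
  set r0 := √a0
  set s1 := √b1
  set s0 := √b0
  have hle : q * X1 + (1 - q) * X0 ≤ q * (r1 * s1) + (1 - q) * (r0 * s0) := by
    have := mul_le_mul_of_nonneg_left h1 q0
    have := mul_le_mul_of_nonneg_left h0 q1'
    linarith
  refine hle.trans ?_
  rw [← Real.sqrt_mul hA]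
  apply Real.le_sqrt_of_sq_le
  have h5 : (q * (r1 * s1) + (1 - q) * (r0 * s0)) ^ 2 ≤
      (q * a1 + (1 - q) * a0) * (q * b1 + (1 - q) * b0) := by
    rw [← e1, ← e2, ← e3, ← e4]
    have h6 := mul_nonneg (mul_nonneg q0 q1') (sq_nonneg (r1 * s0 - r0 * s1))
    nlinarith [h6]
  exact h5.trans (mul_le_mul_of_nonneg_left hB hA)

variable [DecidableEq E]

lemma Ex_cent (p : E → ℝ) (F : Finset E) :
    Ex p F (fun A => ∑ e ∈ F, (ind (e ∈ A) - p e)) = 0 := by
  induction F using Finset.induction_on with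
  | empty => simp [Ex_empty]
  | insert a F ha ih =>
    rw [Ex_insert p ha]
    have h1 : Ex p F (fun A => ∑ e ∈ insert a F, (ind (e ∈ insert a A) - p e)) = 1 - p a := by
      have : ∀ A, A ⊆ F → ∑ e ∈ insert a F, (ind (e ∈ insert a A) - p e) =
          (1 - p a) + ∑ e ∈ F, (ind (e ∈ A) - p e) := by
        intro A _
        rw [Finset.sum_insert ha, ind_of (Finset.mem_insert_self a A)]
        congr 1
        apply Finset.sum_congr rfl
        intro e he
        have hne : e ≠ a := fun h => ha (h ▸ he)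
        rw [ind_congr (P := e ∈ insert a A) (Q := e ∈ A) (by
          rw [Finset.mem_insert]
          exact ⟨fun h => h.resolve_left hne, Or.inr⟩)]
      rw [Ex_congr this, Ex_add, Ex_const, ih, add_zero]
    have h0 : Ex p F (fun A => ∑ e ∈ insert a F, (ind (e ∈ A) - p e)) = - p a := by
      have : ∀ A, A ⊆ F → ∑ e ∈ insert a F, (ind (e ∈ A) - p e) =
          - p a + ∑ e ∈ F, (ind (e ∈ A) - p e) := by
        intro A hA
        rw [Finset.sum_insert ha, ind_not_of (fun h => ha (hA h)), zero_sub]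
      rw [Ex_congr this, Ex_add, Ex_const, ih, add_zero]
    rw [h1, h0]
    ring

theorem cs_aux {S : Finset E} {p : E → ℝ} {v : ℝ} {C : Finset E → Set W}
    {t : E → Set W → Prop} (hp : Ok p) (hmono : ∀ A B, A ⊆ B → C A ⊆ C B)
    (hstop : ∀ A B, A ⊆ B → B ⊆ S → (∀ e ∈ B, e ∉ A → ¬ t e (C A)) → C B = C A)
    (hv : 0 ≤ v) (T : ℕ) (Inv : Finset E → Finset E → Prop) (Φ : Finset E → Finset E → ℝ)
    (h1 : ∀ R O, O ⊆ R → R ⊆ S → Inv R O → Φ R O ≤ v * sz T (C O))
    (h2 : ∀ R O e, O ⊆ R → R ⊆ S → e ∈ S → e ∉ R → Inv R O → t e (C O) →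
      (C O).encard < T → Inv (insert e R) (insert e O) ∧ Inv (insert e R) O ∧
        Φ R O + p e ≤ p e * Φ (insert e R) (insert e O) + (1 - p e) * Φ (insert e R) O) :
    ∀ (k : ℕ) (F R O : Finset E) (c : ℝ), F.card = k → Disjoint F R → F ∪ R = S → O ⊆ R →
      Inv R O →
      Ex p F (fun A => ind ((T : ℕ∞) ≤ (C (O ∪ A)).encard) *
        (c + ∑ e ∈ F, (ind (e ∈ A) - p e))) ≤
      √(Ex p F (fun A => ind ((T : ℕ∞) ≤ (C (O ∪ A)).encard))) *
        √(c ^ 2 + v * Ex p F (fun A => (sz T (C (O ∪ A)) : ℝ)) - Φ R O) := by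
  have hszEx : ∀ (F O : Finset E), (sz T (C O) : ℝ) ≤
      Ex p F (fun A => (sz T (C (O ∪ A)) : ℝ)) := by
    intro F O
    have := Ex_mono hp (S := F) (f := fun _ => (sz T (C O) : ℝ))
      (g := fun A => (sz T (C (O ∪ A)) : ℝ)) (fun A _ => by
        exact_mod_cast sz_mono T (hmono _ _ Finset.subset_union_left))
    rwa [Ex_const] at this
  have hpos : ∀ (F R O : Finset E) (c : ℝ), O ⊆ R → R ⊆ S → Inv R O →
      0 ≤ c ^ 2 + v * Ex p F (fun A => (sz T (C (O ∪ A)) : ℝ)) - Φ R O := by
    intro F R O c hO hR hI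
    have a1 := h1 R O hO hR hI
    have a2 := mul_le_mul_of_nonneg_left (hszEx F O) hv
    nlinarith [sq_nonneg c]
  intro k
  induction k with
  | zero =>
    intro F R O c hF hd hFR hO hI
    rw [Finset.card_eq_zero] at hF
    subst hF
    rw [Ex_empty, Ex_empty, Ex_empty]
    simp only [Finset.union_empty, Finset.sum_empty, add_zero]
    have hRS : R = S := by rw [← hFR, Finset.empty_union]
    by_cases hT : (T : ℕ∞) ≤ (C O).encard
    · rw [ind_of hT, one_mul, Real.sqrt_one, one_mul]
      apply Real.le_sqrt_of_sq_le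
      have := h1 R O hO hRS.le hI
      linarith
    · rw [ind_not_of hT, zero_mul, Real.sqrt_zero, zero_mul]
  | succ k ih =>
    intro F R O c hF hd hFR hO hI
    have hRS : R ⊆ S := by rw [← hFR]; exact Finset.subset_union_right
    have hFS : F ⊆ S := by rw [← hFR]; exact Finset.subset_union_left
    by_cases hT : (C O).encard < T
    swap
    · push Not at hT
      have hbig : ∀ A, (T : ℕ∞) ≤ (C (O ∪ A)).encard := fun A =>
        hT.trans (Set.encard_le_encard (hmono _ _ Finset.subset_union_left))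
      have e1 : Ex p F (fun A => ind ((T : ℕ∞) ≤ (C (O ∪ A)).encard) *
          (c + ∑ e ∈ F, (ind (e ∈ A) - p e))) = c := by
        have : ∀ A, A ⊆ F → ind ((T : ℕ∞) ≤ (C (O ∪ A)).encard) *
          (c + ∑ e ∈ F, (ind (e ∈ A) - p e)) = c + ∑ e ∈ F, (ind (e ∈ A) - p e) := by
          intro A _
          rw [ind_of (hbig A), one_mul]
        rw [Ex_congr this, Ex_add, Ex_const, Ex_cent, add_zero]
      have e2 : Ex p F (fun A => ind ((T : ℕ∞) ≤ (C (O ∪ A)).encard)) = 1 := by
        have : ∀ A, A ⊆ F → ind ((T : ℕ∞) ≤ (C (O ∪ A)).encard) = 1 := by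
          intro A _
          rw [ind_of (hbig A)]
        rw [Ex_congr this, Ex_const]
      rw [e1, e2, Real.sqrt_one, one_mul]
      apply Real.le_sqrt_of_sq_le
      have a1 := h1 R O hO hRS hI
      have a2 := mul_le_mul_of_nonneg_left (hszEx F O) hv
      linarith
    have hOS : O ⊆ S := hO.trans hRS
    by_cases hex : ∃ e ∈ F, t e (C O)
    swap
    · push Not at hex
      have hCA : ∀ A, A ⊆ F → C (O ∪ A) = C O := by
        intro A hA
        apply hstop _ _ Finset.subset_union_left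
          (Finset.union_subset hOS (hA.trans hFS))
        intro e he heO
        rcases Finset.mem_union.mp he with h | h
        · exact absurd h heO
        · exact hex e (hA h)
      have e1 : Ex p F (fun A => ind ((T : ℕ∞) ≤ (C (O ∪ A)).encard) *
          (c + ∑ e ∈ F, (ind (e ∈ A) - p e))) = 0 := by
        have : ∀ A, A ⊆ F → ind ((T : ℕ∞) ≤ (C (O ∪ A)).encard) *
          (c + ∑ e ∈ F, (ind (e ∈ A) - p e)) = 0 := by
          intro A hA
          rw [hCA A hA, ind_not_of (not_le.mpr hT), zero_mul]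
        rw [Ex_congr this, Ex_const]
      rw [e1]
      exact mul_nonneg (Real.sqrt_nonneg _) (Real.sqrt_nonneg _)
    obtain ⟨e, heF, hte⟩ := hex
    set F' := F.erase e with hF'
    have heF' : e ∉ F' := Finset.notMem_erase e F
    have hFe : F = insert e F' := (Finset.insert_erase heF).symm
    have heR : e ∉ R := Finset.disjoint_left.mp hd heF
    have heS : e ∈ S := hFS heF
    have hcard : F'.card = k := by
      rw [hF', Finset.card_erase_of_mem heF, hF]; rfl
    have hd' : Disjoint F' (insert e R) := by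
      rw [Finset.disjoint_insert_right]
      exact ⟨heF', Finset.disjoint_of_subset_left (Finset.erase_subset _ _) hd⟩
    have hFR' : F' ∪ insert e R = S := by
      rw [← hFR, hFe]
      ext x
      simp only [Finset.mem_union, Finset.mem_insert]
      tauto
    have hR'S : insert e R ⊆ S := Finset.insert_subset heS hRS
    obtain ⟨hI1, hI0, hΦ⟩ := h2 R O e hO hRS heS heR hI hte hT
    have i1 := ih F' (insert e R) (insert e O) (c + (1 - p e)) hcard hd' hFR'
      (Finset.insert_subset_insert _ hO) hI1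
    have i0 := ih F' (insert e R) O (c + (- p e)) hcard hd' hFR'
      (hO.trans (Finset.subset_insert _ _)) hI0
    have k1 := hpos F' (insert e R) (insert e O) (c + (1 - p e))
      (Finset.insert_subset_insert _ hO) hR'S hI1
    have k0 := hpos F' (insert e R) O (c + (- p e))
      (hO.trans (Finset.subset_insert _ _)) hR'S hI0
    rw [hFe, Ex_insert p heF', Ex_insert p heF', Ex_insert p heF']
    have hu : ∀ A, O ∪ insert e A = insert e O ∪ A := by
      intro A
      ext x
      simp only [Finset.mem_union, Finset.mem_insert]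
      tauto
    have e1 : Ex p F' (fun A => ind ((T : ℕ∞) ≤ (C (O ∪ insert e A)).encard) *
        (c + ∑ e' ∈ insert e F', (ind (e' ∈ insert e A) - p e'))) =
        Ex p F' (fun A => ind ((T : ℕ∞) ≤ (C (insert e O ∪ A)).encard) *
        (c + (1 - p e) + ∑ e' ∈ F', (ind (e' ∈ A) - p e'))) := by
      apply Ex_congr
      intro A hA
      rw [hu, Finset.sum_insert heF', ind_of (Finset.mem_insert_self e A)]
      have h3 : ∑ e' ∈ F', (ind (e' ∈ insert e A) - p e') =
          ∑ e' ∈ F', (ind (e' ∈ A) - p e') := by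
        apply Finset.sum_congr rfl
        intro e' he'
        have hne : e' ≠ e := fun h => heF' (h ▸ he')
        rw [ind_congr (P := e' ∈ insert e A) (Q := e' ∈ A) (by
          rw [Finset.mem_insert]
          exact ⟨fun h => h.resolve_left hne, Or.inr⟩)]
      rw [h3]
      ring
    have e0 : Ex p F' (fun A => ind ((T : ℕ∞) ≤ (C (O ∪ A)).encard) *
        (c + ∑ e' ∈ insert e F', (ind (e' ∈ A) - p e'))) =
        Ex p F' (fun A => ind ((T : ℕ∞) ≤ (C (O ∪ A)).encard) *
        (c + (- p e) + ∑ e' ∈ F', (ind (e' ∈ A) - p e'))) := by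
      apply Ex_congr
      intro A hA
      rw [Finset.sum_insert heF', ind_not_of (fun h => heF' (hA h))]
      ring
    have m1 : Ex p F' (fun A => (sz T (C (O ∪ insert e A)) : ℝ)) =
        Ex p F' (fun A => (sz T (C (insert e O ∪ A)) : ℝ)) := by
      apply Ex_congr
      intro A hA
      rw [hu]
    have m2 : Ex p F' (fun A => ind ((T : ℕ∞) ≤ (C (O ∪ insert e A)).encard)) =
        Ex p F' (fun A => ind ((T : ℕ∞) ≤ (C (insert e O ∪ A)).encard)) := by
      apply Ex_congr
      intro A hA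
      rw [hu]
    rw [e1, e0, m1, m2]
    obtain ⟨q0, q1⟩ := hp e
    have n1 : 0 ≤ Ex p F' (fun A => ind ((T : ℕ∞) ≤ (C (insert e O ∪ A)).encard)) :=
      Ex_nonneg hp (fun _ _ => ind_nonneg _)
    have n0 : 0 ≤ Ex p F' (fun A => ind ((T : ℕ∞) ≤ (C (O ∪ A)).encard)) :=
      Ex_nonneg hp (fun _ _ => ind_nonneg _)
    refine cs_two q0 q1 n1 n0 k1 k0 i1 i0 ?_
    nlinarith [hΦ, mul_nonneg q0 q0]

theorem secA : S_secA := by
  intro E W _ S p C t hp hX T
  have h := cs_aux (v := 1) hp hX.mono hX.stop zero_le_one T (fun _ _ => True)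
    (fun _ O => (sz T (C O) : ℝ)) (fun R O _ _ _ => by rw [one_mul]) (by
      intro R O e hO hR heS heR _ hte hT
      refine ⟨trivial, trivial, ?_⟩
      have h1 := sz_succ hT (hX.grow O e (hO.trans hR) heS (fun h => heR (hO h)) hte)
      obtain ⟨q0, q1⟩ := hp e
      nlinarith [mul_le_mul_of_nonneg_left h1 q0])
    S.card S ∅ ∅ 0 rfl (Finset.disjoint_empty_right _) (Finset.union_empty _)
    (Finset.empty_subset _) trivial
  simp only [Finset.empty_union, zero_add, one_mul] at h
  refine h.trans ?_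
  apply mul_le_mul_of_nonneg_left _ (Real.sqrt_nonneg _)
  apply Real.sqrt_le_sqrt
  have : (0 : ℝ) ≤ (sz T (C ∅) : ℝ) := Nat.cast_nonneg _
  linarith [this]

theorem secB : S_secB := by
  intro E W _ S p v C t hp hX hv T
  have h := cs_aux (v := v) hp hX.mono hX.stop hv T
    (fun R O => (∀ e ∈ R, t e (C O)) ∧ ∑ e ∈ R, p e ≤ v * T)
    (fun R _ => ∑ e ∈ R, p e) (by
      rintro R O hO hR ⟨hI1, hI2⟩
      by_cases hT : (C O).encard < T
      · rw [sz_lt hT]
        exact hX.bd O (hO.trans hR) (Set.finite_of_encard_le_coe hT.le) R hR hI1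
      · push Not at hT
        rw [sz_ge hT]
        exact hI2) (by
      rintro R O e hO hR heS heR ⟨hI1, hI2⟩ hte hT
      have hfin : (C O).Finite := Set.finite_of_encard_le_coe hT.le
      have hOS : O ⊆ S := hO.trans hR
      have hR' : ∀ e' ∈ insert e R, t e' (C O) := by
        intro e' he'
        rcases Finset.mem_insert.mp he' with h | h
        · rw [h]; exact hte
        · exact hI1 e' h
      have hb' : ∑ e' ∈ insert e R, p e' ≤ v * T := by
        have h1 := hX.bd O hOS hfin (insert e R) (Finset.insert_subset heS hR) hR'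
        have h2 : ((C O).ncard : ℝ) ≤ T := by
          have h3 : ((C O).ncard : ℕ∞) ≤ T := by
            rw [hfin.cast_ncard_eq]; exact hT.le
          exact_mod_cast h3
        nlinarith
      refine ⟨⟨fun e' he' => hX.tmono _ _ _ (hX.mono _ _ (Finset.subset_insert _ _))
        (hR' e' he'), hb'⟩, ⟨hR', hb'⟩, ?_⟩
      rw [Finset.sum_insert heR]
      apply le_of_eq
      ring)
    S.card S ∅ ∅ 0 rfl (Finset.disjoint_empty_right _) (Finset.union_empty _)
    (Finset.empty_subset _) ⟨by simp, by rw [Finset.sum_empty]; positivity⟩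
  simp only [Finset.empty_union, zero_add, Finset.sum_empty, sub_zero] at h
  simpa using h

end Pool.Agent.Y840.PL
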